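import Pool.Agent.H66.GR.A

/-! The weak version: products of weakly Grothendieck spaces with locally omega-bounded spaces. -/

set_option autoImplicit false

open Set Filter Topology TopologicalSpace

namespace Pool.Agent.H66.GR

section
variable {Z : Type*} [TopologicalSpace Z] {A : Set Z}

lemma mem_of_cl {β : Type*} {l : Filter β} {a : β → Z} {z : Z} (hz : MapClusterPt z l a)
    {C : Set Z} (hC : IsClosed C) (h : ∀ᶠ n in l, a n ∈ C) : z ∈ C :=
  hC.closure_subset (mem_closure_iff_clusterPt.2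
    (hz.clusterPt.mono (le_principal_iff.2 (mem_map.2 h))))

end

variable {X K Z : Type*} [TopologicalSpace X] [TopologicalSpace K] [TopologicalSpace Z]
  {A : Set Z}

lemma g_weak (hX : IsG (Cp X)) (hA : ∀ a : ℕ → Z, (∀ n, a n ∈ A) → ∃ z, MapClusterPt z atTop a)
    {φ : Z → X → ℝ} (hφ : Continuous φ) (hφ' : ∀ z, Continuous (φ z)) {g : X → ℝ}
    (hg : g ∈ closure (φ '' A)) : Continuous g := by
  have h1 := hX {s | s.1 ∈ φ '' A} (acc_of_cluster fun u hu => by
    choose a ha hau using hu
    obtain ⟨z, hz⟩ := hA a ha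
    refine ⟨⟨φ z, hφ' z⟩, IsInducing.subtypeVal.mapClusterPt_iff.1 ?_⟩
    have := hz.continuousAt_comp hφ.continuousAt
    rwa [show φ ∘ a = Subtype.val ∘ u from funext hau] at this)
  obtain ⟨s, -, rfl⟩ := closure_minimal (t := Subtype.val '' closure {s : Cp X | s.1 ∈ φ '' A}) (by
    rintro _ ⟨a, ha, rfl⟩
    exact ⟨⟨φ a, hφ' a⟩, subset_closure (mem_image_of_mem φ ha), rfl⟩)
    (h1.image continuous_subtype_val).isClosed hg
  exact s.2

lemma cont_sup {Y : Type*} [TopologicalSpace Y] {b : ℕ → Y → ℝ} {G : Y → ℝ}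
    (hb : ∀ n, Continuous (b n)) (hb0 : ∀ n y, 0 ≤ b n y) (hb1 : ∀ n y, b n y ≤ 1)
    (hG : Continuous G) (hG0 : ∀ y, 0 ≤ G y) (h : ∀ y0, G y0 = 0 → ∀ ε > 0, ∀ᶠ y in 𝓝 y0,
      ∀ n, b n y - 2 ^ n * G y ≤ b n y0 + ε) :
    Continuous fun y => ⨆ n, max 0 (b n y - 2 ^ n * G y) := by
  have hc : ∀ n, Continuous fun y => max 0 (b n y - 2 ^ n * G y) := fun n => by fun_prop
  have hB : ∀ y, BddAbove (range fun n => max 0 (b n y - 2 ^ n * G y)) := fun y => ⟨1, by
    rintro _ ⟨n, rfl⟩
    have := mul_nonneg (pow_nonneg zero_le_two n) (hG0 y)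
    exact max_le zero_le_one (by linarith [hb1 n y])⟩
  have h1 : ∀ y0, ∀ ε > 0, ∀ᶠ y in 𝓝 y0, ∀ n,
      max 0 (b n y - 2 ^ n * G y) ≤ max 0 (b n y0 - 2 ^ n * G y0) + ε := by
    intro y0 ε hε
    rcases (hG0 y0).eq_or_lt with h0 | h0
    · refine (h y0 h0.symm ε hε).mono fun y hy n => max_le (by positivity) ((hy n).trans ?_)
      rw [← h0, mul_zero, sub_zero, max_eq_right (hb0 n y0)]
    · obtain ⟨N, hN⟩ := pow_unbounded_of_one_lt (2 / G y0) (one_lt_two (α := ℝ))
      have h2 : ∀ᶠ y in 𝓝 y0, ∀ n ∈ Finset.range N,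
          max 0 (b n y - 2 ^ n * G y) < max 0 (b n y0 - 2 ^ n * G y0) + ε :=
        (eventually_all_finset _).2 fun n _ => (hc n).continuousAt.eventually_lt
          continuousAt_const (by linarith)
      filter_upwards [h2, continuousAt_const.eventually_lt hG.continuousAt (half_lt_self h0)]
        with y hy hy' n
      rcases lt_or_ge n N with hn | hn
      · exact (hy n (Finset.mem_range.2 hn)).le
      · have h3 : (2 : ℝ) ^ N ≤ 2 ^ n := pow_le_pow_right₀ one_le_two hn
        rw [div_lt_iff₀ h0] at hN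
        have h4 : (0 : ℝ) < 2 ^ N := by positivity
        rw [max_eq_left (by nlinarith [hb1 n y])]
        positivity
  refine continuous_iff_lower_upperSemicontinuous.2 ⟨lowerSemicontinuous_ciSup hB
    fun n => (hc n).lowerSemicontinuous, fun y0 t ht => ?_⟩
  obtain ⟨ε, hε, hε'⟩ := exists_pos_add_of_lt' ht
  refine (h1 y0 (ε / 2) (half_pos hε)).mono fun y hy => ?_
  refine (ciSup_le fun n => (hy n).trans (add_le_add_left (le_ciSup (hB y0) n) _)).trans_lt ?_
  rw [← hε']
  linarith

lemma equi_ctble (hX : IsG (Cp X))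
    (hA : ∀ a : ℕ → Z, (∀ n, a n ∈ A) → ∃ z, MapClusterPt z atTop a)
    {ι : Z → X × K → ℝ} (hι : Continuous ι) (hι' : ∀ z, Continuous (ι z)) {p : X × K → ℝ}
    (hp : p ∈ closure (ι '' A)) (hp' : ∀ k, Continuous fun x => p (x, k)) (l : ℕ → K)
    (hl : IsCompact (closure (range l))) (x0 : X)
    {ε : ℝ} (hε : 0 < ε) : ∀ᶠ x in 𝓝 x0, ∀ n, min 1 |p (x, l n) - p (x0, l n)| ≤ ε := by
  have hCS : CompactSpace (closure (range l)) := isCompact_iff_compactSpace.1 hl
  set a : ℕ → (X × K → ℝ) → X → ℝ :=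
    fun n q x => (1 / 2) ^ n * min 1 |q (x, l n) - p (x, l n)| with ha
  have ha0 : ∀ n q x, 0 ≤ a n q x := fun n q x => by rw [ha]; positivity
  have ha1 : ∀ n q x, ‖a n q x‖ ≤ (1 / 2) ^ n := fun n q x => by
    rw [Real.norm_of_nonneg (ha0 n q x)]
    exact mul_le_of_le_one_right (by positivity) (min_le_left _ _)
  set G : (X × K → ℝ) → X → ℝ := fun q x => ∑' n, a n q x with hG
  have hG0 : ∀ q x, 0 ≤ G q x := fun q x => tsum_nonneg fun n => ha0 n q x
  have hG1 : ∀ n q x, min 1 |q (x, l n) - p (x, l n)| ≤ 2 ^ n * G q x := fun n q x => by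
    have h3 : a n q x ≤ G q x := (Summable.of_norm_bounded summable_geometric_two
      fun n => ha1 n q x).le_tsum n fun m _ => ha0 m q x
    refine le_trans (le_of_eq ?_) (mul_le_mul_of_nonneg_left h3 (by positivity))
    simp only [ha]
    rw [← mul_assoc, ← mul_pow]
    norm_num
  have hGp : ∀ x, G p x = 0 := fun x => by simp [hG, ha]
  set b : ℕ → (X × K → ℝ) → X → ℝ := fun n q x => min 1 |q (x, l n) - p (x0, l n)| with hb
  have hb0 : ∀ n q x, 0 ≤ b n q x := fun n q x => by rw [hb]; positivity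
  have hb1 : ∀ n q x, b n q x ≤ 1 := fun n q x => min_le_left _ _
  have hb2 : ∀ n q x q' x', b n q x ≤ b n q' x' + min 1 |q (x, l n) - q' (x', l n)| := by
    intro n q x q' x'
    have h1 := abs_sub_le (q (x, l n)) (q' (x', l n)) (p (x0, l n))
    have h2 := abs_nonneg (q (x, l n) - q' (x', l n))
    have h3 := abs_nonneg (q' (x', l n) - p (x0, l n))
    simp only [hb, min_def]
    split_ifs <;> linarith
  have h1 : Continuous fun q x => ⨆ n, max 0 (b n q x - 2 ^ n * G q x) := by
    refine continuous_pi fun x => cont_sup (b := fun n q => b n q x) (G := fun q => G q x)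
      (fun n => by rw [hb]; fun_prop) (fun n q => hb0 n q x) (fun n q => hb1 n q x)
      (continuous_tsum (fun n => by rw [ha]; fun_prop) summable_geometric_two
        fun n q => ha1 n q x) (fun q => hG0 q x) fun q0 h0 δ hδ =>
      Eventually.of_forall fun q n => ?_
    have h2 := hb2 n q x p x
    have h3 := hb2 n p x q0 x
    have h4 := hG1 n q x
    have h5 := hG1 n q0 x
    rw [abs_sub_comm, h0, mul_zero] at h5
    linarith
  have h2 : Continuous fun x => ⨆ n, max 0 (b n p x - 2 ^ n * G p x) := by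
    refine g_weak hX hA (h1.comp hι) (fun z => ?_) (by
      rw [image_comp]
      exact image_closure_subset_closure_image h1 (mem_image_of_mem _ hp))
    have h3 : ∀ k, Continuous fun x => ι z (x, k) := fun k => (hι' z).comp (by fun_prop)
    refine cont_sup (b := fun n => b n (ι z)) (fun n => ?_) (fun n => hb0 n _) (fun n => hb1 n _)
      (continuous_tsum (fun n => ?_) summable_geometric_two fun n => ha1 n _) (hG0 _)
      fun x1 _ δ hδ => ?_
    · exact continuous_const.min ((h3 _).sub continuous_const).abs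
    · exact continuous_const.mul (continuous_const.min ((h3 _).sub (hp' _)).abs)
    · set c := ((⟨ι z, hι' z⟩ : C(X × K, ℝ)).comp
        (⟨fun q => (q.1, q.2.1), by fun_prop⟩ : C(X × closure (range l), X × K))).curry
      refine (Metric.tendsto_nhds.1 (c.continuous.tendsto x1) δ hδ).mono fun x hx n => ?_
      have h4 := hb2 n (ι z) x (ι z) x1
      have h5 : |ι z (x, l n) - ι z (x1, l n)| ≤ dist (c x) (c x1) :=
        ContinuousMap.dist_apply_le_dist (f := c x) (g := c x1)
          ⟨l n, subset_closure (mem_range_self n)⟩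
      have h6 := mul_nonneg (pow_nonneg zero_le_two n) (hG0 (ι z) x)
      linarith [min_le_right 1 |ι z (x, l n) - ι z (x1, l n)|]
  simp only [hGp, mul_zero, sub_zero, max_eq_right (hb0 _ _ _)] at h2
  refine (h2.continuousAt.eventually_lt continuousAt_const (x₀ := x0) (g := fun _ => ε)
    (by simpa [hb] using hε)).mono fun x hx n => le_trans ?_ hx.le
  exact le_ciSup (f := fun n => b n p x) ⟨1, by rintro _ ⟨n, rfl⟩; exact hb1 _ _ _⟩ n

omit [TopologicalSpace K] in
lemma unif {K : Type*} (hX : IsG (Cp X)) {N : Set K} {p : X × K → ℝ}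
    (hp : ∀ k, Continuous fun x => p (x, k))
    (hq : ∀ L ⊆ N, L.Countable → ∀ y, ∀ ε > 0, ∀ᶠ x in 𝓝 y,
      ∀ l ∈ L, dist (p (x, l)) (p (y, l)) ≤ ε) (x0 : X) :
    ∃ v : X → ℝ, Continuous v ∧ v x0 = 0 ∧
      ∀ x, ∀ k ∈ N, min 1 (dist (p (x, k)) (p (x0, k))) ≤ v x := by
  set u : Finset N → Cp X := fun E =>
    ⟨fun x => min 1 (dist (fun l : E => p (x, l.1.1)) fun l => p (x0, l.1.1)),
      continuous_const.min ((continuous_pi fun l : E => hp l.1.1).dist continuous_const)⟩ with hu
  have h1 : ∀ B ⊆ range u, B.Infinite → ∃ z : Cp X, AccPt z (𝓟 B) := by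
    refine acc_of_cluster fun a ha => ?_
    choose E hE using ha
    obtain ⟨v, -, hv⟩ := (isCompact_univ_pi fun _ : X => isCompact_Icc (a := (0 : ℝ))
      (b := 1)).exists_mapClusterPt (f := atTop)
      (u := fun n => (a n).1) (le_principal_iff.2 (mem_map.2 (Eventually.of_forall fun n x _ => by
        show (a n).1 x ∈ Icc _ _
        exact hE n ▸ ⟨le_min zero_le_one dist_nonneg, min_le_left _ _⟩)))
    have h4 : Continuous v := by
      refine continuous_iff_continuousAt.2 fun y => Metric.tendsto_nhds.2 fun ε hε => ?_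
      refine (hq (⋃ n, Subtype.val '' (E n : Set N)) (iUnion_subset fun n => by
        rintro _ ⟨d, -, rfl⟩
        exact d.2) (countable_iUnion fun n => (E n).countable_toSet.image _) y _
          (half_pos hε)).mono
        fun x hx => lt_of_le_of_lt ?_ (half_lt_self hε)
      refine mem_of_cl hv (C := {w | dist (w x) (w y) ≤ ε / 2})
        (isClosed_le (by fun_prop) continuous_const) (Eventually.of_forall fun n => ?_)
      have h2 : dist (fun l : E n => p (x, l.1.1)) (fun l => p (y, l.1.1)) ≤ ε / 2 :=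
        (dist_pi_le_iff (half_pos hε).le).2 fun l => hx l.1.1 (mem_iUnion.2 ⟨n, l.1, l.2, rfl⟩)
      rw [← hE n]
      refine (abs_min_sub_min_le_max (1 : ℝ) _ 1 _).trans
        (max_le (by simpa using (half_pos hε).le) ?_)
      exact (abs_dist_sub_le _ _ _).trans h2
    exact ⟨⟨v, h4⟩, IsInducing.subtypeVal.mapClusterPt_iff.1 hv⟩
  obtain ⟨v, -, hv⟩ := (hX _ h1).exists_mapClusterPt (f := atTop) (u := u)
    (le_principal_iff.2 (mem_map.2 (Eventually.of_forall fun E =>
      subset_closure (mem_range_self _))))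
  have hc : ∀ z, Continuous fun q : Cp X => q.1 z := fun z =>
    (continuous_apply z).comp continuous_subtype_val
  refine ⟨v.1, v.2, mem_of_cl hv (isClosed_eq (hc _) continuous_const)
    (Eventually.of_forall fun E => by simp [hu]), fun x k hk => mem_of_cl hv
    (isClosed_le continuous_const (hc x)) ((eventually_ge_atTop {⟨k, hk⟩}).mono fun E hE => ?_)⟩
  exact min_le_min_left _
    (dist_le_pi_dist (fun l : E => p (x, l.1.1)) (fun l => p (x0, l.1.1))
      ⟨⟨k, hk⟩, hE (Finset.mem_singleton_self _)⟩)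

/-- every subspace of `C_p` of a one-point space is a g-space -/
lemma groth_punit (S : Set (Cp PUnit.{1})) : IsG S := by
  intro A hA
  refine finish (cluster hA) fun g hg => ?_
  obtain ⟨u, hu, hum⟩ := mem_closure_iff_seq_limit.1 hg
  choose a ha hau using hu
  obtain ⟨z, hz⟩ := cluster hA a ha
  refine ⟨z, ?_⟩
  have hc : Continuous fun f : S => f.1.1 := continuous_subtype_val.comp continuous_subtype_val
  have h1 := hz.continuousAt_comp hc.continuousAt
  rw [show (fun f : S => f.1.1) ∘ a = u from funext hau] at h1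
  exact eq_of_nhds_neBot (h1.clusterPt.mono hum)

/-- Grothendieck's theorem on a set whose countable subsets have compact closures. -/
lemma g_ob (hA : ∀ a : ℕ → Z, (∀ n, a n ∈ A) → ∃ z, MapClusterPt z atTop a)
    {φ : Z → K → ℝ} (hφ : Continuous φ) (hφ' : ∀ z, Continuous (φ z)) {g : K → ℝ}
    (hg : g ∈ closure (φ '' A)) {N : Set K} (hN : OB N) :
    ∃ h : K → ℝ, Continuous h ∧ ∀ k ∈ N, h k = g k := by
  let S : Set (Cp (PUnit.{1} × K)) := univ
  let ψ : Z → S := fun z => ⟨⟨fun q : PUnit.{1} × K => φ z q.2, (hφ' z).comp continuous_snd⟩,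
    trivial⟩
  have hψ : Continuous ψ := Continuous.subtype_mk (Continuous.subtype_mk
    (continuous_pi fun q : PUnit.{1} × K => (continuous_apply q.2).comp hφ) _) _
  have hA' : ∀ a : ℕ → S, (∀ n, a n ∈ ψ '' A) → ∃ z, MapClusterPt z atTop a := fun a ha => by
    choose b hb hba using ha
    obtain ⟨z, hz⟩ := hA b hb
    refine ⟨ψ z, ?_⟩
    have := hz.continuousAt_comp hψ.continuousAt
    rwa [show ψ ∘ b = a from funext hba] at this
  have hr : Continuous fun (f : K → ℝ) (q : PUnit.{1} × K) => f q.2 :=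
    continuous_pi fun q => continuous_apply q.2
  obtain ⟨h, hh⟩ := mem_seq (g := fun q : PUnit.{1} × K => g q.2) (A := ψ '' A) groth_punit hA'
    (by
      have := image_closure_subset_closure_image hr (mem_image_of_mem _ hg)
      rw [image_image] at this ⊢
      exact this) (D := fun _ => N) fun _ => hN
  exact ⟨fun k => h.1.1 (PUnit.unit, k), h.1.2.comp (by fun_prop), fun k hk => hh _ 0 k hk⟩

lemma joint (hX : IsG (Cp X)) (hA : ∀ a : ℕ → Z, (∀ n, a n ∈ A) → ∃ z, MapClusterPt z atTop a)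
    {ι : Z → X × K → ℝ} (hι : Continuous ι) (hι' : ∀ z, Continuous (ι z)) {p : X × K → ℝ}
    (hp : p ∈ closure (ι '' A)) (hK : ∀ k : K, ∃ N ∈ 𝓝 k, OB N) : Continuous p := by
  have h1 : ∀ k, Continuous fun x => p (x, k) := by
    intro k
    have hG : Continuous fun (f : X × K → ℝ) x => f (x, k) := by fun_prop
    exact g_weak hX hA (hG.comp hι) (fun z => (hι' z).comp (by fun_prop)) (by
      rw [image_comp]
      exact image_closure_subset_closure_image hG (mem_image_of_mem _ hp))
  refine continuous_iff_continuousAt.2 fun ⟨x0, k0⟩ => ?_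
  obtain ⟨N, hN0, hN⟩ := hK k0
  obtain ⟨v, hv, hv0, hv'⟩ := unif (N := N) hX h1 (fun L hLN hL y ε hε => by
    rcases L.eq_empty_or_nonempty with rfl | hne
    · exact Eventually.of_forall fun x l hl => absurd hl (notMem_empty l)
    obtain ⟨l, hl⟩ := hL.exists_eq_range hne
    refine (equi_ctble hX hA hι hι' hp h1 l (hl ▸ hN L hLN hL) y
      (lt_min hε one_half_pos)).mono fun x hx k hk => ?_
    obtain ⟨n, rfl⟩ : k ∈ range l := hl ▸ hk
    rcases min_le_iff.1 (hx n) with h | h
    · linarith [min_le_right ε (1 / 2)]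
    · exact h.trans (min_le_left _ _)) x0
  have hG : Continuous fun (f : X × K → ℝ) k => f (x0, k) := by fun_prop
  obtain ⟨h, hh, hhN⟩ := g_ob hA (hG.comp hι) (fun z => (hι' z).comp (by fun_prop)) (by
      rw [image_comp]
      exact image_closure_subset_closure_image hG (mem_image_of_mem _ hp)) hN
  have hk0 : k0 ∈ N := mem_of_mem_nhds hN0
  refine tendsto_iff_dist_tendsto_zero.2 (squeeze_zero' (Eventually.of_forall fun _ => dist_nonneg)
    (g := fun z => v z.1 + dist (h z.2) (h k0)) ?_ ?_)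
  · have e1 : ∀ᶠ z : X × K in 𝓝 (x0, k0), z.2 ∈ N :=
      continuous_snd.continuousAt.eventually (p := (· ∈ N)) hN0
    refine (((hv.comp continuous_fst).continuousAt.eventually_lt continuousAt_const
      (g := fun _ => 1) (by simp [hv0])).and e1).mono fun z hz => ?_
    refine (dist_triangle _ (p (x0, z.2)) _).trans ?_
    rw [hhN _ hz.2, hhN _ hk0]
    refine add_le_add_left ?_ _
    exact (min_le_iff.1 (hv' z.1 z.2 hz.2)).resolve_left (not_le.2 hz.1)
  · exact Continuous.tendsto' ((hv.comp continuous_fst).add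
      ((hh.comp continuous_snd).dist continuous_const)) _ _ (by simp [hv0])

lemma finish' {Y : Type*} [TopologicalSpace Y] {A : Set (Cp Y)}
    (hA : ∀ a : ℕ → Cp Y, (∀ n, a n ∈ A) → ∃ z, MapClusterPt z atTop a)
    (h : ∀ g ∈ closure (Subtype.val '' A : Set (Y → ℝ)), ∃ h : Cp Y, h.1 = g) :
    IsCompact (closure A) := by
  let ι : Cp Y → Y → ℝ := fun f => f.1
  have hι : IsEmbedding ι := IsEmbedding.subtypeVal
  have hb : ∀ y, ∃ M : ℕ, ∀ f ∈ A, |ι f y| ≤ M := by
    intro y
    by_contra h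
    push Not at h
    choose a ha ha' using h
    obtain ⟨z, hz⟩ := hA a ha
    have hc : Continuous fun f : Cp Y => |ι f y| := ((continuous_apply y).comp hι.continuous).abs
    have h1 := mapClusterPt_iff_frequently.1 hz _
      ((isOpen_lt hc continuous_const).mem_nhds (lt_add_one |ι z y|))
    obtain ⟨n, hn, hn'⟩ := (h1.and_eventually
      (tendsto_natCast_atTop_atTop.eventually_ge_atTop (|ι z y| + 1))).exists
    exact lt_irrefl _ ((hn.trans_le hn').trans (ha' n))
  choose M hM using hb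
  have hK : IsCompact (closure (ι '' A)) := by
    refine (isCompact_univ_pi fun y =>
      isCompact_Icc (a := -(M y : ℝ)) (b := M y)).closure_of_subset ?_
    rintro _ ⟨f, hf, rfl⟩ y _
    exact abs_le.1 (hM y f hf)
  rw [hι.closure_eq_preimage_closure_image, hι.isInducing.isCompact_preimage_iff h]
  exact hK

theorem wprod_OB (hK : ∀ k : K, ∃ N ∈ 𝓝 k, OB N) (hX : IsG (Cp X)) : IsG (Cp (X × K)) :=
  fun _ hA => finish' (cluster hA) fun p hp =>
    ⟨⟨p, joint hX (cluster hA) continuous_subtype_val (fun z => z.2) hp hK⟩, rfl⟩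

end Pool.Agent.H66.GR
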