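import Pool.Agent.H66.GR.B

/-! The class of spaces with a dense countable union of relatively omega-bounded sets. -/

set_option autoImplicit false

open Set Filter Topology TopologicalSpace

namespace Pool.Agent.H66.GR

variable {K L : Type*} [TopologicalSpace K] [TopologicalSpace L]

/-- a dense countable union of sets whose countable subsets have compact closures -/
def DOB (K : Type*) [TopologicalSpace K] : Prop :=
  ∃ D : ℕ → Set K, (∀ n, OB (D n)) ∧ Dense (⋃ n, D n)

lemma OB.mono {D E : Set K} (hE : OB E) (h : D ⊆ E) : OB D := fun T hT hc => hE T (hT.trans h) hc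

lemma OB.union {D E : Set K} (hD : OB D) (hE : OB E) : OB (D ∪ E) := by
  intro T hT hc
  have h1 : T = (T ∩ D) ∪ (T ∩ E) := by rw [← inter_union_distrib_left, inter_eq_left.2 hT]
  rw [h1, closure_union]
  exact (hD _ inter_subset_right (hc.mono inter_subset_left)).union
    (hE _ inter_subset_right (hc.mono inter_subset_left))

lemma ob_of_compact [T2Space K] {C : Set K} (hC : IsCompact C) : OB C :=
  fun _ hT _ => hC.closure_of_subset hT

lemma dob_of_compact [CompactSpace K] : DOB K :=
  ⟨fun _ => univ, fun _ _ _ _ => isClosed_closure.isCompact, by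
    rw [iUnion_const]; exact dense_univ⟩

lemma dob_of_sigma [T2Space K] {C : ℕ → Set K} (hC : ∀ n, IsCompact (C n))
    (hd : Dense (⋃ n, C n)) : DOB K := ⟨C, fun n => ob_of_compact (hC n), hd⟩

lemma dob_image [T2Space L] {f : K → L} (hf : Continuous f) (hr : DenseRange f) (hK : DOB K) :
    DOB L := by
  obtain ⟨D, hD, hd⟩ := hK
  refine ⟨fun n => f '' D n, fun n T hT hc => ?_, ?_⟩
  · haveI := hc.to_subtype
    have : ∀ z : T, ∃ y, y ∈ D n ∧ f y = z := fun z => hT z.2
    choose g hg hg' using this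
    have h1 : T = f '' range g := by
      ext z
      constructor
      · intro hz
        exact ⟨g ⟨z, hz⟩, mem_range_self _, hg' _⟩
      · rintro ⟨_, ⟨w, rfl⟩, rfl⟩
        rw [hg']
        exact w.2
    have h2 : IsCompact (f '' closure (range g)) :=
      (hD n _ (range_subset_iff.2 hg) (countable_range g)).image hf
    rw [h1]
    exact h2.closure_of_subset (image_mono subset_closure)
  · rw [← image_iUnion]
    exact hr.dense_image hf hd

lemma dob_pi {ι : Type*} {K : ι → Type*} [∀ i, TopologicalSpace (K i)] [∀ i, T1Space (K i)]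
    (hK : ∀ i, DOB (K i)) : DOB (∀ i, K i) := by
  classical
  rcases isEmpty_or_nonempty (∀ i, K i) with he | ⟨⟨b⟩⟩
  · exact ⟨fun _ => ∅, fun _ T hT _ => by
      rw [subset_empty_iff.1 hT, closure_empty]; exact isCompact_empty, fun x => he.elim x⟩
  choose D hD hd using hK
  let E : ∀ i, ℕ → Set (K i) := fun i n => Nat.rec {b i} (fun n s => s ∪ D i n) n
  have hE : ∀ i n, OB (E i n) := by
    intro i n
    induction n with
    | zero =>
      intro T hT _
      have hf : T.Finite := (finite_singleton (b i)).subset hT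
      rw [hf.isClosed.closure_eq]
      exact hf.isCompact
    | succ n ih => exact ih.union (hD i n)
  have hEm : ∀ i, Monotone (E i) := fun i => monotone_nat_of_le_succ fun n => subset_union_left
  have hb : ∀ i n, b i ∈ E i n := fun i n => hEm i (Nat.zero_le n) rfl
  refine ⟨fun n => pi univ fun i => E i n, fun n T hT hc => ?_, ?_⟩
  · have h1 : ∀ i, IsCompact (closure ((fun x : ∀ i, K i => x i) '' T)) := fun i =>
      hE i n _ (by
        rintro _ ⟨x, hx, rfl⟩
        exact hT hx i trivial) (hc.image _)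
    refine (isCompact_univ_pi h1).of_isClosed_subset isClosed_closure ?_
    exact closure_minimal (fun x hx i _ => subset_closure ⟨x, hx, rfl⟩)
      (isClosed_set_pi fun i _ => isClosed_closure)
  · refine dense_iff_inter_open.2 fun U hU ⟨x, hx⟩ => ?_
    obtain ⟨I, u, hu, hIU⟩ := isOpen_pi_iff.1 hU x hx
    have h2 : ∀ i, ∃ y n, i ∈ I → y ∈ u i ∧ y ∈ E i n := by
      intro i
      by_cases hi : i ∈ I
      · obtain ⟨y, hy, hy'⟩ := (hd i).inter_open_nonempty _ (hu i hi).1 ⟨_, (hu i hi).2⟩
        obtain ⟨n, hn⟩ := mem_iUnion.1 hy'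
        exact ⟨y, n + 1, fun _ => ⟨hy, Or.inr hn⟩⟩
      · exact ⟨b i, 0, fun h => absurd h hi⟩
    choose y n hyn using h2
    refine ⟨fun i => if i ∈ I then y i else b i, hIU fun i hi => ?_, mem_iUnion.2
      ⟨I.sup n, fun i _ => ?_⟩⟩
    · have hi' : i ∈ I := hi
      simp only [hi', if_true]
      exact (hyn i hi').1
    · by_cases hi : i ∈ I
      · simp only [hi, if_true]
        exact hEm i (Finset.le_sup hi) (hyn i hi).2
      · simp only [hi, if_false]
        exact hb i _

/-- the space of all countable ordinals -/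
abbrev W1 : Type 1 := Set.Iio (Ordinal.omega.{0} 1)

open Ordinal in
lemma w1_compact (α : W1) : IsCompact (Iic α) := by
  have h1 : IsCompact (Iic (α : Ordinal.{0})) := by
    have := isCompact_Icc (a := (0 : Ordinal.{0})) (b := α)
    rwa [show Icc (0 : Ordinal.{0}) α = Iic (α : Ordinal.{0}) from by ext x; simp] at this
  have h2 : Iic (α : Ordinal.{0}) ⊆ range (Subtype.val : W1 → Ordinal.{0}) := by
    intro x hx
    exact ⟨⟨x, mem_Iio.2 (lt_of_le_of_lt (mem_Iic.1 hx) (mem_Iio.1 α.2))⟩, rfl⟩
  have h3 := (IsInducing.subtypeVal.isCompact_preimage_iff h2).2 h1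
  exact h3

open Ordinal in
lemma w1_bdd (T : Set W1) (hT : T.Countable) : ∃ α : W1, T ⊆ Iic α := by
  haveI := hT.to_subtype
  have h := iSup_lt_omega_one (f := fun t : T => (t.1 : Ordinal.{0}))
  have hb : (⨆ t : T, (t.1.1 : Ordinal.{0})) < ω₁ := h fun t => t.1.2
  exact ⟨⟨_, hb⟩, fun t ht => Ordinal.le_iSup (fun t : T => (t.1.1 : Ordinal.{0})) ⟨t, ht⟩⟩

lemma w1_ob : OB (univ : Set W1) := by
  intro T _ hT
  obtain ⟨α, hα⟩ := w1_bdd T hT
  exact (w1_compact α).of_isClosed_subset isClosed_closure (closure_minimal hα isClosed_Iic)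

lemma w1_not_sigma (C : ℕ → Set W1) (hC : ∀ n, IsCompact (C n)) : ¬ Dense (⋃ n, C n) := by
  intro hd
  have h1 : ∀ n, ∃ α : W1, C n ⊆ Iic α := by
    intro n
    rcases (C n).eq_empty_or_nonempty with h | h
    · exact ⟨⟨0, Ordinal.omega_pos 1⟩, by rw [h]; exact empty_subset _⟩
    · obtain ⟨α, -, hα⟩ := (hC n).exists_isMaxOn h continuous_id.continuousOn
      exact ⟨α, fun x hx => hα hx⟩
  choose α hα using h1
  obtain ⟨β, hβ⟩ := w1_bdd (range α) (countable_range α)
  have h2 : (⋃ n, C n) ⊆ Iic β := iUnion_subset fun n =>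
    (hα n).trans (Iic_subset_Iic.2 (hβ (mem_range_self n)))
  have h3 : Iic β = univ := by
    have := hd.closure_eq
    exact eq_univ_of_univ_subset (this ▸ closure_minimal h2 isClosed_Iic)
  have h4 : Order.succ (β : Ordinal.{0}) < Ordinal.omega 1 :=
    (Cardinal.isSuccLimit_omega 1).succ_lt (mem_Iio.1 β.2)
  have h5 : (⟨_, h4⟩ : W1) ∈ Iic β := by rw [h3]; trivial
  exact absurd (show Order.succ (β : Ordinal.{0}) ≤ β from h5) (not_le.2 (Order.lt_succ _))

end Pool.Agent.H66.GR
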